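import Mathlib
import Pool.Agent.Y918.QC.LO
import Pool.Agent.E8helper75.ZP.Cnt

set_option autoImplicit false

/-!
# Random arithmetic expressions: the evaluation
-/

namespace Pool.Agent.E8helper75.ZE

open Finset Module

open Classical in
/-- one step: `M` is the set of the positions of the operations `×`, `÷`, and `T` the set of the
positions of the operations `+`, `×` -/
noncomputable def st (z a b : ℕ → ℂ) (M T : Finset ℕ) (k : ℕ) (x : ℂ) : ℂ :=
  a k * (if k ∈ M then (if k ∈ T then x * z k else x / z k)
    else (if k ∈ T then x + z k else x - z k)) + b k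

/-- the steps `p, …, p + l - 1` -/
noncomputable def run (z a b : ℕ → ℂ) (M T : Finset ℕ) (p : ℕ) : ℕ → ℂ → ℂ
  | 0, x => x
  | l + 1, x => st z a b M T (p + l) (run z a b M T p l x)

variable (z a b : ℕ → ℂ)

theorem run_add (M T : Finset ℕ) (p l l' : ℕ) (x : ℂ) :
    run z a b M T p (l + l') x = run z a b M T (p + l) l' (run z a b M T p l x) := by
  induction l' with
  | zero => rfl
  | succ l' ih =>
    rw [← add_assoc, run, run, ih, add_assoc]

theorem st_congr {M T M' T' : Finset ℕ} {k : ℕ} (hM : k ∈ M ↔ k ∈ M') (hT : k ∈ T ↔ k ∈ T')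
    (x : ℂ) : st z a b M T k x = st z a b M' T' k x := by
  unfold st
  simp only [hM, hT]

theorem run_congr {M T M' T' : Finset ℕ} (p l : ℕ) (h : ∀ k, p ≤ k → k < p + l →
    ((k ∈ M ↔ k ∈ M') ∧ (k ∈ T ↔ k ∈ T'))) (x : ℂ) :
    run z a b M T p l x = run z a b M' T' p l x := by
  induction l with
  | zero => rfl
  | succ l ih =>
    rw [run, run, ih fun k h1 h2 => h k h1 (by omega)]
    have := h (p + l) (by omega) (by omega)
    exact st_congr z a b this.1 this.2 _

open Classical in
/-- the factor of a step of the type `×` or `÷` -/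
noncomputable def zs (T : Finset ℕ) (k : ℕ) : ℂ := if k ∈ T then z k else (z k)⁻¹

theorem zs_ne (hz : ∀ k, z k ≠ 0) (T : Finset ℕ) (k : ℕ) : zs z T k ≠ 0 := by
  unfold zs
  split_ifs
  · exact hz k
  · exact inv_ne_zero (hz k)

/-- the composed map is affine -/
theorem run_affine (M T : Finset ℕ) (p l : ℕ) (hM : M ⊆ Ico p (p + l)) :
    ∃ β : ℂ, ∀ x, run z a b M T p l x =
      ((∏ k ∈ Ico p (p + l), a k) * ∏ k ∈ M, zs z T k) * x + β := by
  classical
  induction l generalizing M with
  | zero =>
    have : M = ∅ := by
      rw [add_zero, Ico_self] at hM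
      exact subset_empty.1 hM
    subst this
    exact ⟨0, fun x => by simp [run]⟩
  | succ l ih =>
    have hM' : M.erase (p + l) ⊆ Ico p (p + l) := by
      intro k hk
      have h1 := hM (mem_of_mem_erase hk)
      rw [mem_Ico] at h1 ⊢
      have := ne_of_mem_erase hk
      omega
    obtain ⟨β, hβ⟩ := ih (M.erase (p + l)) hM'
    have hcong : ∀ x, run z a b M T p l x = run z a b (M.erase (p + l)) T p l x := by
      intro x
      apply run_congr
      intro k h1 h2
      refine ⟨?_, Iff.rfl⟩
      rw [mem_erase]
      constructor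
      · intro h; exact ⟨by omega, h⟩
      · intro h; exact h.2
    have hA : ∏ k ∈ Ico p (p + (l + 1)), a k = (∏ k ∈ Ico p (p + l), a k) * a (p + l) := by
      rw [← add_assoc, prod_Ico_succ_top (by omega)]
    by_cases hk : p + l ∈ M
    · have hB : ∏ k ∈ M, zs z T k = zs z T (p + l) * ∏ k ∈ M.erase (p + l), zs z T k :=
        (mul_prod_erase M _ hk).symm
      refine ⟨a (p + l) * zs z T (p + l) * β + b (p + l), fun x => ?_⟩
      rw [run, hcong, hβ, hA, hB]
      unfold st
      rw [if_pos hk]
      unfold zs
      split_ifs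
      · ring
      · rw [div_eq_mul_inv]; ring
    · have hB : M.erase (p + l) = M := erase_eq_of_notMem hk
      rw [hB] at hβ
      by_cases hT : p + l ∈ T
      · refine ⟨a (p + l) * (β + z (p + l)) + b (p + l), fun x => ?_⟩
        rw [run, hβ, hA]
        unfold st
        rw [if_neg hk, if_pos hT]
        ring
      · refine ⟨a (p + l) * (β - z (p + l)) + b (p + l), fun x => ?_⟩
        rw [run, hβ, hA]
        unfold st
        rw [if_neg hk, if_neg hT]
        ring

/-- for given positions of `×` and `÷` the value is a sum with random signs -/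
theorem run_signs (hz : ∀ k, z k ≠ 0) (ha : ∀ k, a k ≠ 0) (M T₁ : Finset ℕ) (hT₁ : T₁ ⊆ M)
    (n : ℕ) (x : ℂ) :
    ∃ (C : ℂ) (u : ℕ → ℂ), (∀ k ∈ range n \ M, u k ≠ 0) ∧ ∀ T₂ ⊆ range n \ M,
      run z a b M (T₁ ∪ T₂) 0 n x = C + ∑ k ∈ T₂, u k := by
  classical
  induction n with
  | zero =>
    refine ⟨x, fun _ => 0, by simp, fun T₂ hT₂ => ?_⟩
    have : T₂ = ∅ := by simpa using hT₂
    subst this
    simp [run]
  | succ n ih =>
    obtain ⟨C, u, hu, hrun⟩ := ih
    by_cases hn : n ∈ M
    · -- a step `×` or `÷`
      have hS : range (n + 1) \ M = range n \ M := by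
        ext k
        simp only [mem_sdiff, mem_range]
        constructor
        · rintro ⟨h1, h2⟩
          refine ⟨?_, h2⟩
          rcases Nat.lt_succ_iff_lt_or_eq.1 h1 with h | h
          · exact h
          · exact absurd (h ▸ hn) h2
        · rintro ⟨h1, h2⟩
          exact ⟨by omega, h2⟩
      rw [hS]
      refine ⟨a n * zs z T₁ n * C + b n, fun k => a n * zs z T₁ n * u k, fun k hk => ?_,
        fun T₂ hT₂ => ?_⟩
      · exact mul_ne_zero (mul_ne_zero (ha n) (zs_ne z hz T₁ n)) (hu k hk)
      · have hnT : n ∈ T₁ ∪ T₂ ↔ n ∈ T₁ := by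
          rw [mem_union]
          constructor
          · rintro (h | h)
            · exact h
            · have := hT₂ h
              rw [mem_sdiff, mem_range] at this
              omega
          · intro h; exact Or.inl h
        rw [run, zero_add, hrun T₂ hT₂, ← mul_sum]
        unfold st
        rw [if_pos hn]
        unfold zs
        by_cases h : n ∈ T₁
        · rw [if_pos (hnT.2 h), if_pos h]; ring
        · rw [if_neg (fun h' => h (hnT.1 h')), if_neg h, div_eq_mul_inv]; ring
    · -- a step `+` or `-`
      have hS : range (n + 1) \ M = insert n (range n \ M) := by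
        ext k
        simp only [mem_sdiff, mem_range, mem_insert]
        constructor
        · rintro ⟨h1, h2⟩
          rcases Nat.lt_succ_iff_lt_or_eq.1 h1 with h | h
          · exact Or.inr ⟨h, h2⟩
          · exact Or.inl h
        · rintro (h | ⟨h1, h2⟩)
          · subst h; exact ⟨by omega, hn⟩
          · exact ⟨by omega, h2⟩
      have hnT₁ : n ∉ T₁ := fun h => hn (hT₁ h)
      rw [hS]
      refine ⟨a n * (C - z n) + b n, fun k => if k = n then 2 * a n * z n else a n * u k,
        fun k hk => ?_, fun T₂ hT₂ => ?_⟩
      · beta_reduce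
        by_cases h : k = n
        · rw [if_pos h]
          exact mul_ne_zero (mul_ne_zero two_ne_zero (ha n)) (hz n)
        · rw [if_neg h]
          refine mul_ne_zero (ha n) (hu k ?_)
          rcases mem_insert.1 hk with h1 | h1
          · exact absurd h1 h
          · exact h1
      · have hT₂' : T₂.erase n ⊆ range n \ M := by
          intro k hk
          rcases mem_insert.1 (hT₂ (mem_of_mem_erase hk)) with h | h
          · exact absurd h (ne_of_mem_erase hk)
          · exact h
        have hcong : run z a b M (T₁ ∪ T₂) 0 n x = run z a b M (T₁ ∪ T₂.erase n) 0 n x := by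
          apply run_congr
          intro k h1 h2
          refine ⟨Iff.rfl, ?_⟩
          rw [mem_union, mem_union, mem_erase]
          have : k ≠ n := by omega
          tauto
        have hsum : ∑ k ∈ T₂.erase n, (if k = n then 2 * a n * z n else a n * u k) =
            a n * ∑ k ∈ T₂.erase n, u k := by
          rw [mul_sum]
          exact sum_congr rfl fun k hk => if_neg (ne_of_mem_erase hk)
        rw [run, zero_add, hcong, hrun _ hT₂']
        unfold st
        rw [if_neg hn]
        by_cases h : n ∈ T₂
        · rw [if_pos (mem_union_right _ h), ← add_sum_erase T₂ _ h, hsum, if_pos rfl]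
          ring
        · have h1 : n ∉ T₁ ∪ T₂ := by
            rw [mem_union]; tauto
          rw [erase_eq_of_notMem h] at hsum ⊢
          rw [if_neg h1, hsum]
          ring

end Pool.Agent.E8helper75.ZE
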