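import Mathlib
import Pool.Agent.E8helper75.ZE.Run

set_option autoImplicit false

/-!
# Random arithmetic expressions: single values
-/

namespace Pool.Agent.E8helper75.ZE

open Finset Module

/-- counting subsets by their part in `J` -/
theorem count_fiber_real {X : Type*} [DecidableEq X] (U J : Finset X) (hJ : J ⊆ U)
    (bad : Finset X → Prop) [DecidablePred bad] (C : ℝ)
    (h : ∀ R ⊆ U \ J, ((J.powerset.filter (fun S => bad (R ∪ S))).card : ℝ) ≤ C) :
    ((U.powerset.filter bad).card : ℝ) ≤ 2 ^ (U.card - J.card) * C := by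
  have h2 : (U.powerset.filter bad).card =
      ∑ R ∈ (U \ J).powerset, ((U.powerset.filter bad).filter (fun S => S \ J = R)).card := by
    apply Finset.card_eq_sum_card_fiberwise
    intro S hS
    rw [Finset.mem_coe, Finset.mem_filter, Finset.mem_powerset] at hS
    rw [Finset.mem_coe, Finset.mem_powerset]
    exact Finset.sdiff_subset_sdiff hS.1 (Finset.Subset.refl J)
  rw [h2]
  push_cast
  calc _ ≤ ∑ R ∈ (U \ J).powerset, C := by
        apply Finset.sum_le_sum
        intro R hR
        rw [Finset.mem_powerset] at hR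
        refine le_trans ?_ (h R hR)
        refine Nat.cast_le.2 (Finset.card_le_card_of_injOn (fun S => S ∩ J) ?_ ?_)
        · intro S hS
          rw [Finset.mem_coe, Finset.mem_filter, Finset.mem_filter] at hS
          rw [Finset.mem_coe, Finset.mem_filter, Finset.mem_powerset]
          refine ⟨Finset.inter_subset_right, ?_⟩
          rw [← hS.2, Finset.sdiff_union_inter]
          exact hS.1.2
        · intro S hS S' hS' hSS
          rw [Finset.mem_coe, Finset.mem_filter] at hS hS'
          have e1 : S ∩ J = S' ∩ J := hSS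
          have e2 : S \ J = S' \ J := hS.2.trans hS'.2.symm
          rw [← Finset.sdiff_union_inter S J, ← Finset.sdiff_union_inter S' J, e1, e2]
    _ = _ := by
        rw [Finset.sum_const, nsmul_eq_mul, Finset.card_powerset,
          Finset.card_sdiff_of_subset hJ]
        push_cast
        rfl

theorem sum_binom (n : ℕ) : ∑ M ∈ (range n).powerset, (2 : ℝ) / ((n : ℝ) - M.card + 1) ≤
    4 * 2 ^ n / (n + 1) := by
  have h : ∑ M ∈ (range n).powerset, (2 : ℝ) / ((n : ℝ) - M.card + 1) =
      ∑ m ∈ range ((range n).card + 1), ((range n).card).choose m •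
        ((2 : ℝ) / ((n : ℝ) - m + 1)) :=
    Finset.sum_powerset_apply_card (fun m : ℕ => (2 : ℝ) / ((n : ℝ) - m + 1))
  rw [h, card_range]
  have hn : (0 : ℝ) < (n : ℝ) + 1 := by positivity
  have h1 : ∀ m ∈ range (n + 1), n.choose m • ((2 : ℝ) / ((n : ℝ) - m + 1)) =
      2 / ((n : ℝ) + 1) * ((n + 1).choose m : ℝ) := by
    intro m hm
    rw [mem_range] at hm
    have h2 := Nat.choose_mul_succ_eq n m
    have h3 : ((n : ℝ).toNNReal : ℝ) = n := by simp
    have h4 : (n.choose m : ℝ) * ((n : ℝ) + 1) = ((n + 1).choose m : ℝ) * ((n : ℝ) - m + 1) := by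
      have h5 : ((n + 1 - m : ℕ) : ℝ) = (n : ℝ) - m + 1 := by
        rw [Nat.cast_sub (by omega)]; push_cast; ring
      rw [← h5]
      exact_mod_cast h2
    have h6 : (0 : ℝ) < (n : ℝ) - m + 1 := by
      have : (m : ℝ) ≤ n := by exact_mod_cast Nat.lt_succ_iff.1 hm
      linarith
    rw [nsmul_eq_mul]
    field_simp
    linear_combination h4
  rw [sum_congr rfl h1, ← mul_sum]
  have h7 : ∑ m ∈ range (n + 1), ((n + 1).choose m : ℝ) ≤ 2 ^ (n + 1) := by
    have h8 := Nat.sum_range_choose (n + 1)
    rw [sum_range_succ] at h8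
    have : ∑ m ∈ range (n + 1), (n + 1).choose m ≤ 2 ^ (n + 1) := by omega
    exact_mod_cast this
  calc 2 / ((n : ℝ) + 1) * ∑ m ∈ range (n + 1), ((n + 1).choose m : ℝ) ≤
      2 / ((n : ℝ) + 1) * 2 ^ (n + 1) := by gcongr
    _ = _ := by rw [pow_succ]; ring

variable (z a b : ℕ → ℂ)

open Classical in
theorem base_one (hz : ∀ k, z k ≠ 0) (ha : ∀ k, a k ≠ 0) (n : ℕ) (x y : ℂ) (M : Finset ℕ)
    (hM : M ⊆ range n) :
    (((range n).powerset.filter (fun T => run z a b M T 0 n x = y)).card : ℝ) ≤
      2 ^ n * Real.sqrt (2 / ((n : ℝ) - M.card + 1)) := by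
  set J := range n \ M with hJ
  have hJc : J.card = n - M.card := by rw [hJ, card_sdiff_of_subset hM, card_range]
  have hMn : M.card ≤ n := by
    have := card_le_card hM
    rwa [card_range] at this
  have hJr : (J.card : ℝ) = (n : ℝ) - M.card := by
    rw [hJc, Nat.cast_sub hMn]
  have hsd : range n \ J = M := by
    rw [hJ, sdiff_sdiff_right_self]
    exact inf_eq_right.2 hM
  have h := count_fiber_real (range n) J sdiff_subset (fun T => run z a b M T 0 n x = y)
    (Real.sqrt (2 / ((n : ℝ) - M.card + 1)) * 2 ^ J.card) (fun R hR => by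
      have hR' : R ⊆ M := by rwa [hsd] at hR
      obtain ⟨C, u, hu, hrun⟩ := run_signs z a b hz ha M R hR' n x
      rcases Nat.eq_zero_or_pos J.card with h0 | h0
      · have h1 : J = ∅ := card_eq_zero.1 h0
        rw [h0, pow_zero, mul_one]
        have h2 : ((J.powerset.filter (fun S => run z a b M (R ∪ S) 0 n x = y)).card : ℝ) ≤ 1 := by
          have : (J.powerset.filter (fun S => run z a b M (R ∪ S) 0 n x = y)).card ≤ 1 := by
            refine (card_filter_le _ _).trans ?_
            rw [h1]; simp
          exact_mod_cast this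
        refine h2.trans ?_
        rw [← hJr, h0]
        rw [Real.one_le_sqrt]
        norm_num
      · have h1 := Pool.Agent.Y918.QC.lo_count J u (⊥ : Submodule ℚ ℂ) (y - C) J.card h0 (by
          refine card_le_card fun k hk => ?_
          rw [mem_filter, Submodule.mem_bot]
          exact ⟨hk, hu k hk⟩)
        have h2 : J.powerset.filter (fun S => run z a b M (R ∪ S) 0 n x = y) ⊆
            J.powerset.filter (fun S => ∑ k ∈ S, u k - (y - C) ∈ (⊥ : Submodule ℚ ℂ)) := by
          intro S hS
          rw [mem_filter, mem_powerset] at hS ⊢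
          refine ⟨hS.1, ?_⟩
          rw [Submodule.mem_bot]
          have h3 := hrun S hS.1
          rw [hS.2] at h3
          rw [h3]; ring
        refine (Nat.cast_le.2 (card_le_card h2)).trans (h1.trans ?_)
        gcongr
        have hJ1 : (1 : ℝ) ≤ J.card := by exact_mod_cast h0
        rw [← hJr, one_div, ← Real.sqrt_inv]
        apply Real.sqrt_le_sqrt
        rw [inv_eq_one_div, div_le_div_iff₀ (by linarith) (by linarith)]
        linarith)
  refine h.trans (le_of_eq ?_)
  rw [card_range]
  have hp : (2 : ℝ) ^ n = 2 ^ (n - J.card) * 2 ^ J.card := by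
    rw [← pow_add]
    congr 1
    have : J.card ≤ n := by rw [hJc]; omega
    omega
  rw [hp]
  ring

open Classical in
/-- **Single values are rare.** -/
theorem base (hz : ∀ k, z k ≠ 0) (ha : ∀ k, a k ≠ 0) (n : ℕ) (x y : ℂ) :
    ((((range n).powerset ×ˢ (range n).powerset).filter
      (fun w => run z a b w.1 w.2 0 n x = y)).card : ℝ) ≤ 2 / Real.sqrt (n + 1) * 4 ^ n := by
  have h1 : (((range n).powerset ×ˢ (range n).powerset).filter
      (fun w => run z a b w.1 w.2 0 n x = y)).card =
      ∑ M ∈ (range n).powerset, ((range n).powerset.filter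
        (fun T => run z a b M T 0 n x = y)).card := by
    rw [card_filter, sum_product]
    exact sum_congr rfl fun M _ => (card_filter _ _).symm
  rw [h1]
  push_cast
  have hn : (0 : ℝ) < (n : ℝ) + 1 := by positivity
  set f : Finset ℕ → ℝ := fun M => Real.sqrt (2 / ((n : ℝ) - M.card + 1)) with hf
  have h2 : ∑ M ∈ (range n).powerset, f M ≤ 2 / Real.sqrt (n + 1) * 2 ^ n := by
    have h3 : (∑ M ∈ (range n).powerset, f M) ^ 2 ≤ (2 / Real.sqrt (n + 1) * 2 ^ n) ^ 2 := by
      calc (∑ M ∈ (range n).powerset, f M) ^ 2 ≤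
          ((range n).powerset.card : ℝ) * ∑ M ∈ (range n).powerset, f M ^ 2 :=
            sq_sum_le_card_mul_sum_sq
        _ = 2 ^ n * ∑ M ∈ (range n).powerset, (2 : ℝ) / ((n : ℝ) - M.card + 1) := by
            rw [card_powerset, card_range]
            push_cast
            congr 1
            refine sum_congr rfl fun M hM => ?_
            have : (M.card : ℝ) ≤ n := by
              have := card_le_card (mem_powerset.1 hM)
              rw [card_range] at this
              exact_mod_cast this
            exact Real.sq_sqrt (div_nonneg (by norm_num) (by linarith))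
        _ ≤ 2 ^ n * (4 * 2 ^ n / (n + 1)) := by
            gcongr
            exact sum_binom n
        _ = _ := by
            rw [mul_pow, div_pow, Real.sq_sqrt hn.le]
            ring
    exact le_of_sq_le_sq h3 (by positivity)
  calc ∑ M ∈ (range n).powerset, (((range n).powerset.filter
        (fun T => run z a b M T 0 n x = y)).card : ℝ) ≤ ∑ M ∈ (range n).powerset, 2 ^ n * f M :=
        sum_le_sum fun M hM => base_one z a b hz ha n x y M (mem_powerset.1 hM)
    _ = 2 ^ n * ∑ M ∈ (range n).powerset, f M := by rw [mul_sum]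
    _ ≤ 2 ^ n * (2 / Real.sqrt (n + 1) * 2 ^ n) := by gcongr
    _ = _ := by
        rw [show (4 : ℝ) ^ n = 2 ^ n * 2 ^ n by rw [← mul_pow]; norm_num]
        ring

end Pool.Agent.E8helper75.ZE
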