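import Mathlib
import Pool.Agent.E8helper75.ZE.Base

set_option autoImplicit false

/-!
# Random arithmetic expressions: the second moment
-/

namespace Pool.Agent.E8helper75.ZE

open Finset Module

/-- the space `c⁻¹ V` -/
noncomputable def scal (c : ℂ) (V : Submodule ℚ ℂ) : Submodule ℚ ℂ :=
  V.comap (LinearMap.mulLeft ℚ c)

theorem mem_scal {c x : ℂ} {V : Submodule ℚ ℂ} : x ∈ scal c V ↔ c * x ∈ V := Iff.rfl

theorem scal_fin {c : ℂ} (hc : c ≠ 0) (V : Submodule ℚ ℂ) (hV : FiniteDimensional ℚ V) :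
    FiniteDimensional ℚ (scal c V) ∧ finrank ℚ (scal c V) = finrank ℚ V := by
  have e : scal c V ≃ₗ[ℚ] V := by
    refine LinearEquiv.ofBijective ((LinearMap.mulLeft ℚ c).restrict (fun x hx => hx)) ⟨?_, ?_⟩
    · intro x y hxy
      have h1 : c * (x : ℂ) = c * y := congrArg Subtype.val hxy
      exact Subtype.ext (mul_left_cancel₀ hc h1)
    · intro y
      refine ⟨⟨c⁻¹ * y, ?_⟩, ?_⟩
      · rw [mem_scal, mul_inv_cancel_left₀ hc]; exact y.2
      · apply Subtype.ext
        show c * (c⁻¹ * (y : ℂ)) = y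
        rw [mul_inv_cancel_left₀ hc]
  exact ⟨Module.Finite.equiv e.symm, e.finrank_eq⟩

theorem scal_div {c c' : ℂ} (hc' : c' ≠ 0) {V : Submodule ℚ ℂ}
    (h : scal c V = scal c' V) : scal (c / c') V = V := by
  ext x
  rw [mem_scal]
  have h1 : c / c' * x = c * (x / c') := by ring
  rw [h1, ← mem_scal, h, mem_scal, mul_div_cancel₀ _ hc']

open Classical in
theorem second_moment {A B : Type*} (SA : Finset A) (SB : Finset B) (X : A → ℂ) (α β : B → ℂ)
    (hα : ∀ v ∈ SB, α v ≠ 0) (V : Submodule ℚ ℂ) (hV : FiniteDimensional ℚ V) (y₀ : ℂ)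
    (δ₁ δ₂ : ℝ) (hδ₂ : 0 ≤ δ₂)
    (h1 : ∀ v' ∈ SB, ((SB.filter (fun v => scal (α v) V = scal (α v') V)).card : ℝ) ≤
      δ₁ * SB.card)
    (h2 : ∀ (y₁ : ℂ) (V' : Submodule ℚ ℂ), FiniteDimensional ℚ V' → finrank ℚ V' < finrank ℚ V →
      ((SA.filter (fun u => X u - y₁ ∈ V')).card : ℝ) ≤ δ₂ * SA.card) :
    (((SA ×ˢ SB).filter (fun w => α w.2 * X w.1 + β w.2 - y₀ ∈ V)).card : ℝ) ≤
      Real.sqrt (δ₁ + δ₂) * (SA.card * SB.card) := by
  set f : A → B → ℝ := fun u v => if α v * X u + β v - y₀ ∈ V then 1 else 0 with hf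
  have hN : (((SA ×ˢ SB).filter (fun w => α w.2 * X w.1 + β w.2 - y₀ ∈ V)).card : ℝ) =
      ∑ u ∈ SA, ∑ v ∈ SB, f u v := by
    rw [card_filter]
    push_cast
    rw [sum_product]
  rw [hN]
  -- pairs
  have hpair : ∀ v ∈ SB, ∀ v' ∈ SB, ∑ u ∈ SA, f u v * f u v' ≤
      (if scal (α v) V = scal (α v') V then (SA.card : ℝ) else 0) + δ₂ * SA.card := by
    intro v hv v' hv'
    have hfc : ∑ u ∈ SA, f u v * f u v' = ((SA.filter (fun u => α v * X u + β v - y₀ ∈ V ∧
        α v' * X u + β v' - y₀ ∈ V)).card : ℝ) := by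
      rw [card_filter]
      push_cast
      refine sum_congr rfl fun u _ => ?_
      simp only [hf]
      by_cases c1 : α v * X u + β v - y₀ ∈ V <;> by_cases c2 : α v' * X u + β v' - y₀ ∈ V <;>
        simp [c1, c2]
    rw [hfc]
    by_cases he : scal (α v) V = scal (α v') V
    · rw [if_pos he]
      have : ((SA.filter (fun u => α v * X u + β v - y₀ ∈ V ∧
        α v' * X u + β v' - y₀ ∈ V)).card : ℝ) ≤ SA.card := by
        exact_mod_cast card_filter_le _ _
      have h3 : 0 ≤ δ₂ * SA.card := by positivity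
      linarith
    · rw [if_neg he, zero_add]
      rcases (SA.filter (fun u => α v * X u + β v - y₀ ∈ V ∧
        α v' * X u + β v' - y₀ ∈ V)).eq_empty_or_nonempty with h0 | ⟨u₀, hu₀⟩
      · rw [h0, card_empty, Nat.cast_zero]
        positivity
      · obtain ⟨hV1, hr1⟩ := scal_fin (hα v hv) V hV
        obtain ⟨hV2, hr2⟩ := scal_fin (hα v' hv') V hV
        have hlt : scal (α v) V ⊓ scal (α v') V < scal (α v) V := by
          refine lt_of_le_of_ne inf_le_left fun h => he ?_
          have h5 : scal (α v) V ≤ scal (α v') V := by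
            rw [← h]; exact inf_le_right
          exact Submodule.eq_of_le_of_finrank_eq h5 (by rw [hr1, hr2])
        have hfr := Submodule.finrank_lt_finrank_of_lt hlt
        rw [hr1] at hfr
        refine le_trans ?_ (h2 (X u₀) (scal (α v) V ⊓ scal (α v') V)
          (Submodule.finiteDimensional_inf_left _ _) hfr)
        refine Nat.cast_le.2 (card_le_card fun u hu => ?_)
        rw [mem_filter] at hu hu₀ ⊢
        refine ⟨hu.1, Submodule.mem_inf.2 ⟨?_, ?_⟩⟩
        · rw [mem_scal]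
          have := V.sub_mem hu.2.1 hu₀.2.1
          convert this using 1
          ring
        · rw [mem_scal]
          have := V.sub_mem hu.2.2 hu₀.2.2
          convert this using 1
          ring
  have hSB : (0 : ℝ) ≤ SB.card := Nat.cast_nonneg _
  have hSA : (0 : ℝ) ≤ SA.card := Nat.cast_nonneg _
  have hsq : (∑ u ∈ SA, ∑ v ∈ SB, f u v) ^ 2 ≤ (δ₁ + δ₂) * (SA.card * SB.card) ^ 2 := by
    calc (∑ u ∈ SA, ∑ v ∈ SB, f u v) ^ 2 ≤ (SA.card : ℝ) * ∑ u ∈ SA, (∑ v ∈ SB, f u v) ^ 2 :=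
          sq_sum_le_card_mul_sum_sq
      _ = (SA.card : ℝ) * ∑ v' ∈ SB, ∑ v ∈ SB, ∑ u ∈ SA, f u v * f u v' := by
          congr 1
          have h5 : ∀ u ∈ SA, (∑ v ∈ SB, f u v) ^ 2 = ∑ v' ∈ SB, ∑ v ∈ SB, f u v * f u v' := by
            intro u _
            rw [sq, sum_mul_sum, sum_comm]
          rw [sum_congr rfl h5, sum_comm]
          refine sum_congr rfl fun v' _ => ?_
          rw [sum_comm]
      _ ≤ (SA.card : ℝ) * ∑ v' ∈ SB, ∑ v ∈ SB,
          ((if scal (α v) V = scal (α v') V then (SA.card : ℝ) else 0) + δ₂ * SA.card) := by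
          refine mul_le_mul_of_nonneg_left ?_ hSA
          exact sum_le_sum fun v' hv' => sum_le_sum fun v hv => hpair v hv v' hv'
      _ ≤ (SA.card : ℝ) * ∑ v' ∈ SB, (δ₁ * SB.card * SA.card + SB.card * (δ₂ * SA.card)) := by
          refine mul_le_mul_of_nonneg_left (sum_le_sum fun v' hv' => ?_) hSA
          rw [sum_add_distrib, sum_const, nsmul_eq_mul]
          have h6 : ∑ v ∈ SB, (if scal (α v) V = scal (α v') V then (SA.card : ℝ) else 0) =
              ((SB.filter (fun v => scal (α v) V = scal (α v') V)).card : ℝ) * SA.card := by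
            rw [← sum_filter, sum_const, nsmul_eq_mul]
          rw [h6]
          have h7 := mul_le_mul_of_nonneg_right (h1 v' hv') hSA
          linarith
      _ = _ := by
          rw [sum_const, nsmul_eq_mul]
          ring
  have hnn : 0 ≤ ∑ u ∈ SA, ∑ v ∈ SB, f u v :=
    sum_nonneg fun u _ => sum_nonneg fun v _ => by
      simp only [hf]; split_ifs <;> norm_num
  calc ∑ u ∈ SA, ∑ v ∈ SB, f u v = Real.sqrt ((∑ u ∈ SA, ∑ v ∈ SB, f u v) ^ 2) :=
        (Real.sqrt_sq hnn).symm
    _ ≤ Real.sqrt ((δ₁ + δ₂) * (SA.card * SB.card) ^ 2) := Real.sqrt_le_sqrt hsq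
    _ = _ := by
        rw [Real.sqrt_mul' _ (sq_nonneg _), Real.sqrt_sq (mul_nonneg hSA hSB)]

/-- indices whose products move the space -/
theorem exists_J (z z' : ℕ → ℂ) (hz : ∀ k, z k ≠ 0) (hz' : ∀ k, z' k = z k ∨ z' k = (z k)⁻¹)
    (V : Submodule ℚ ℂ) (hV : FiniteDimensional ℚ V) (v₀ : ℂ) (hv₀ : v₀ ∈ V) (hv₀0 : v₀ ≠ 0)
    (I : Finset ℕ) (D : ℕ)
    (hD : ∀ V' : Submodule ℚ ℂ, FiniteDimensional ℚ V' → finrank ℚ V' ≤ D → ∃ k ∈ I, z k ∉ V') :
    ∀ m : ℕ, 4 ^ m * finrank ℚ V ≤ D → ∃ J ⊆ I, J.card = m ∧ ∀ U ⊆ J, ∀ U' ⊆ J,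
      scal ((∏ k ∈ U, z' k) / ∏ k ∈ U', z' k) V = V → U = U' := by
  have hz'0 : ∀ k, z' k ≠ 0 := fun k => by
    rcases hz' k with h | h
    · rw [h]; exact hz k
    · rw [h]; exact inv_ne_zero (hz k)
  have hprod : ∀ S : Finset ℕ, (∏ k ∈ S, z' k) ≠ 0 := fun S => prod_ne_zero_iff.2 fun k _ => hz'0 k
  intro m
  induction m with
  | zero =>
    intro _
    refine ⟨∅, by simp, rfl, ?_⟩
    intro U hU U' hU' _
    rw [subset_empty.1 hU, subset_empty.1 hU']
  | succ m ih =>
    intro hm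
    have hm0 : 4 ^ m * finrank ℚ V ≤ D :=
      le_trans (Nat.mul_le_mul_right _ (Nat.pow_le_pow_right (by norm_num) (by omega))) hm
    obtain ⟨J, hJ, hJc, hJd⟩ := ih hm0
    let e := Module.finBasis ℚ V
    set F : Finset ℂ := ((J.powerset ×ˢ J.powerset) ×ˢ (univ : Finset (Fin (finrank ℚ V)))).image
      (fun p => ((∏ k ∈ p.1.1, z' k) / (∏ k ∈ p.1.2, z' k)) * v₀⁻¹ * (e p.2 : ℂ)) with hF
    have hFc : F.card ≤ D := by
      refine card_image_le.trans ?_
      rw [card_product, card_product, card_powerset, hJc, card_univ, Fintype.card_fin, ← pow_add,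
        ← two_mul, pow_mul]
      exact hm0
    obtain ⟨i, hiI, hi⟩ := hD (Submodule.span ℚ (F : Set ℂ)) (FiniteDimensional.span_finset ℚ _)
      ((finrank_span_finset_le_card _).trans hFc)
    have hmem : ∀ A ⊆ J, ∀ B ⊆ J, ∀ w ∈ V,
        ((∏ k ∈ A, z' k) / (∏ k ∈ B, z' k)) * v₀⁻¹ * w ∈ Submodule.span ℚ (F : Set ℂ) := by
      intro A hA B hB w hw
      have h1 := e.sum_repr ⟨w, hw⟩
      have h2 := congrArg (Submodule.subtype V) h1
      rw [map_sum] at h2
      have h3 : w = ∑ j, e.repr ⟨w, hw⟩ j • (e j : ℂ) := by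
        have h4 : (Submodule.subtype V) ⟨w, hw⟩ = w := rfl
        exact (h4.symm.trans h2.symm).trans (sum_congr rfl fun j _ => by rw [map_smul]; rfl)
      obtain ⟨g, hg⟩ : ∃ g : Fin (finrank ℚ V) → ℚ, w = ∑ j, g j • (e j : ℂ) := ⟨_, h3⟩
      rw [hg, mul_sum]
      refine Submodule.sum_mem _ fun j _ => ?_
      rw [mul_smul_comm]
      refine Submodule.smul_mem _ _ (Submodule.subset_span (mem_coe.2 ?_))
      exact mem_image.2 ⟨((A, B), j), mem_product.2 ⟨mem_product.2 ⟨mem_powerset.2 hA,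
        mem_powerset.2 hB⟩, mem_univ _⟩, rfl⟩
    -- a new index is never in the stabiliser
    have hnot : ∀ A ⊆ J, ∀ B ⊆ J,
        scal ((z' i * ∏ k ∈ A, z' k) / ∏ k ∈ B, z' k) V ≠ V := by
      intro A hA B hB h
      apply hi
      rcases hz' i with h1 | h1
      · have h2 : (z' i * ∏ k ∈ A, z' k) / (∏ k ∈ B, z' k) * v₀ ∈ V := by
          rw [← mem_scal, h]; exact hv₀
        have h3 := hmem B hB A hA _ h2
        convert h3 using 1
        rw [h1]
        have a1 := hprod A
        have a2 := hprod B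
        field_simp
      · set ρ := (z' i * ∏ k ∈ A, z' k) / (∏ k ∈ B, z' k) with hρ
        have hρ0 : ρ ≠ 0 := div_ne_zero (mul_ne_zero (hz'0 i) (hprod A)) (hprod B)
        have h2 : ρ⁻¹ * v₀ ∈ V := by
          rw [← h, mem_scal, mul_inv_cancel_left₀ hρ0]; exact hv₀
        have h3 := hmem A hA B hB _ h2
        convert h3 using 1
        rw [hρ, h1]
        have a1 := hprod A
        have a2 := hprod B
        have a3 := hz i
        field_simp
    have hinv : ∀ c : ℂ, c ≠ 0 → scal c V = V → scal c⁻¹ V = V := by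
      intro c hc h
      ext x
      rw [mem_scal]
      conv_lhs => rw [← h, mem_scal, mul_inv_cancel_left₀ hc]
    have hiJ : i ∉ J := by
      intro h
      have h1 := hnot ∅ (empty_subset _) {i} (singleton_subset_iff.2 h)
      apply h1
      have h2 : (z' i * ∏ k ∈ (∅ : Finset ℕ), z' k) / (∏ k ∈ {i}, z' k) = 1 := by
        rw [prod_empty, mul_one, prod_singleton, div_self (hz'0 i)]
      rw [h2]
      ext x
      rw [mem_scal, one_mul]
    refine ⟨insert i J, ?_, by rw [card_insert_of_notMem hiJ, hJc], ?_⟩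
    · intro k hk
      rcases mem_insert.1 hk with rfl | hk
      · exact hiI
      · exact hJ hk
    · intro A hA B hB hAB
      have hA' : A.erase i ⊆ J := by
        intro k hk
        rcases mem_insert.1 (hA (mem_of_mem_erase hk)) with h | h
        · exact absurd h (ne_of_mem_erase hk)
        · exact h
      have hB' : B.erase i ⊆ J := by
        intro k hk
        rcases mem_insert.1 (hB (mem_of_mem_erase hk)) with h | h
        · exact absurd h (ne_of_mem_erase hk)
        · exact h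
      by_cases h1 : i ∈ A <;> by_cases h2 : i ∈ B
      · rw [← mul_prod_erase A z' h1, ← mul_prod_erase B z' h2,
          mul_div_mul_left _ _ (hz'0 i)] at hAB
        have h3 := hJd _ hA' _ hB' hAB
        rw [← insert_erase h1, ← insert_erase h2, h3]
      · exfalso
        rw [← mul_prod_erase A z' h1] at hAB
        rw [erase_eq_of_notMem h2] at hB'
        exact hnot _ hA' _ hB' hAB
      · exfalso
        rw [← mul_prod_erase B z' h2] at hAB
        rw [erase_eq_of_notMem h1] at hA'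
        have h3 := hinv _ (div_ne_zero (hprod A) (mul_ne_zero (hz'0 i) (hprod _))) hAB
        rw [inv_div] at h3
        exact hnot _ hB' _ hA' h3
      · rw [erase_eq_of_notMem h1] at hA'
        rw [erase_eq_of_notMem h2] at hB'
        exact hJd _ hA' _ hB' hAB

open Classical in
/-- **The direction of the target is random.** -/
theorem direction (z : ℕ → ℂ) (hz : ∀ k, z k ≠ 0) (c : ℂ) (hc : c ≠ 0) (W : Submodule ℚ ℂ)
    (V : Submodule ℚ ℂ) (hV : FiniteDimensional ℚ V) (hV0 : V ≠ ⊥)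
    (I : Finset ℕ) (D : ℕ)
    (hD : ∀ V' : Submodule ℚ ℂ, FiniteDimensional ℚ V' → finrank ℚ V' ≤ D → ∃ k ∈ I, z k ∉ V')
    (m : ℕ) (hm : 4 ^ m * finrank ℚ V ≤ D) :
    (((I.powerset ×ˢ I.powerset).filter (fun w =>
      scal (c * ∏ k ∈ w.1, zs z w.2 k) V = W)).card : ℝ) ≤ 1 / 2 ^ m * 4 ^ I.card := by
  obtain ⟨v₀, hv₀, hv₀0⟩ := (Submodule.ne_bot_iff V).1 hV0
  have h1 : ((I.powerset ×ˢ I.powerset).filter (fun w =>
      scal (c * ∏ k ∈ w.1, zs z w.2 k) V = W)).card =
      ∑ T ∈ I.powerset, (I.powerset.filter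
        (fun M => scal (c * ∏ k ∈ M, zs z T k) V = W)).card := by
    rw [card_filter, sum_product_right]
    exact sum_congr rfl fun T _ => (card_filter _ _).symm
  rw [h1]
  push_cast
  have h2 : ∀ T ∈ I.powerset, ((I.powerset.filter
        (fun M => scal (c * ∏ k ∈ M, zs z T k) V = W)).card : ℝ) ≤ 2 ^ I.card / 2 ^ m := by
    intro T _
    obtain ⟨J, hJ, hJc, hJd⟩ := exists_J z (zs z T) hz (fun k => by
      unfold zs
      split_ifs
      · exact Or.inl rfl
      · exact Or.inr rfl) V hV v₀ hv₀ hv₀0 I D hD m hm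
    have hprod : ∀ S : Finset ℕ, (∏ k ∈ S, zs z T k) ≠ 0 :=
      fun S => prod_ne_zero_iff.2 fun k _ => zs_ne z hz T k
    have h3 := count_fiber_real I J hJ (fun M => scal (c * ∏ k ∈ M, zs z T k) V = W) 1
      (fun R hR => by
        have h4 : (J.powerset.filter
            (fun S => scal (c * ∏ k ∈ (R ∪ S), zs z T k) V = W)).card ≤ 1 := by
          rw [card_le_one]
          intro S hS S' hS'
          rw [mem_filter, mem_powerset] at hS hS'
          have hd : ∀ S ⊆ J, Disjoint R S := fun S hS =>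
            (disjoint_of_subset_left hR sdiff_disjoint).mono_right hS
          apply hJd S hS.1 S' hS'.1
          have h5 := scal_div (mul_ne_zero hc (hprod (R ∪ S'))) (hS.2.trans hS'.2.symm)
          rw [prod_union (hd S hS.1), prod_union (hd S' hS'.1), ← mul_assoc, ← mul_assoc,
            mul_div_mul_left _ _ (mul_ne_zero hc (hprod R))] at h5
          exact h5
        exact_mod_cast h4)
    refine h3.trans (le_of_eq ?_)
    have hp : (2 : ℝ) ^ I.card = 2 ^ (I.card - J.card) * 2 ^ m := by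
      rw [← pow_add, ← hJc]
      congr 1
      have := card_le_card hJ
      omega
    rw [hp]
    field_simp
  refine (sum_le_sum h2).trans (le_of_eq ?_)
  rw [sum_const, nsmul_eq_mul, card_powerset, show (4 : ℝ) ^ I.card = 2 ^ I.card * 2 ^ I.card by
    rw [← mul_pow]; norm_num]
  push_cast
  ring

end Pool.Agent.E8helper75.ZE
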