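import Mathlib
import Pool.Agent.E8helper75.ZE.Mom
import Pool.Agent.E8helper75.ZP.Out

set_option autoImplicit false

/-!
# Random arithmetic expressions in the odd zeta values avoid finite-dimensional spaces
-/

namespace Pool.Agent.E8helper75.ZE

open Finset Module Filter

/-- the odd zeta values -/
noncomputable def zz (k : ℕ) : ℂ := riemannZeta (2 * (k : ℂ) + 3)

theorem zz_ne (k : ℕ) : zz k ≠ 0 := Pool.Agent.E8helper75.ZP.zeta_ne k

open Classical in
/-- the number of the words whose value is in `y₀ + V` -/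
noncomputable def cnt (a b : ℕ → ℂ) (n : ℕ) (x y₀ : ℂ) (V : Submodule ℚ ℂ) : ℕ :=
  (((range n).powerset ×ˢ (range n).powerset).filter
    (fun w => run zz a b w.1 w.2 0 n x - y₀ ∈ V)).card

/-- the statement for spaces of dimension at most `d` -/
def SS (d : ℕ) : Prop := ∃ c : ℝ, 0 < c ∧ ∃ n₀ : ℕ, ∀ n ≥ n₀, ∀ a b : ℕ → ℂ, (∀ k, a k ≠ 0) →
  ∀ (x y₀ : ℂ) (V : Submodule ℚ ℂ), FiniteDimensional ℚ V → finrank ℚ V ≤ d →
    (cnt a b n x y₀ V : ℝ) ≤ Real.log n ^ (-c) * 4 ^ n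

theorem SS_zero : SS 0 := by
  classical
  refine ⟨1 / 3, by norm_num, 64, fun n hn a b ha x y₀ V hV hVr => ?_⟩
  have hV0 : V = ⊥ := Submodule.finrank_eq_zero.1 (by omega)
  subst hV0
  have h := base zz a b zz_ne ha n x y₀
  have h1 : (cnt a b n x y₀ ⊥ : ℝ) ≤ 2 / Real.sqrt (n + 1) * 4 ^ n := by
    refine le_trans (Nat.cast_le.2 ?_) h
    unfold cnt
    refine card_le_card fun w hw => ?_
    rw [mem_filter] at hw ⊢
    refine ⟨hw.1, ?_⟩
    have := hw.2
    rw [Submodule.mem_bot] at this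
    exact sub_eq_zero.1 this
  refine h1.trans ?_
  gcongr
  have hnR : (64 : ℝ) ≤ n := by exact_mod_cast hn
  have hn0 : (0 : ℝ) < n := by linarith
  have hlog0 : 0 < Real.log n := Real.log_pos (by linarith)
  rw [Real.rpow_neg hlog0.le]
  have h2 : Real.log n ^ (1 / 3 : ℝ) ≤ (n : ℝ) ^ (1 / 3 : ℝ) :=
    Real.rpow_le_rpow hlog0.le (Real.log_le_self hn0.le) (by norm_num)
  have h3 : 2 * (n : ℝ) ^ (1 / 3 : ℝ) ≤ Real.sqrt (n + 1) := by
    have h4 : (2 : ℝ) ≤ (n : ℝ) ^ (1 / 6 : ℝ) := by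
      have h5 : (2 : ℝ) = (64 : ℝ) ^ (1 / 6 : ℝ) := by
        rw [show (64 : ℝ) = 2 ^ (6 : ℝ) by norm_num, ← Real.rpow_mul (by norm_num)]
        norm_num
      rw [h5]
      exact Real.rpow_le_rpow (by norm_num) hnR (by norm_num)
    calc 2 * (n : ℝ) ^ (1 / 3 : ℝ) ≤ (n : ℝ) ^ (1 / 6 : ℝ) * (n : ℝ) ^ (1 / 3 : ℝ) := by gcongr
      _ = (n : ℝ) ^ (1 / 2 : ℝ) := by rw [← Real.rpow_add hn0]; norm_num
      _ = Real.sqrt n := (Real.sqrt_eq_rpow _).symm
      _ ≤ Real.sqrt (n + 1) := Real.sqrt_le_sqrt (by linarith)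
  rw [div_le_iff₀ (Real.sqrt_pos.2 (by linarith))]
  have h6 : 0 < Real.log n ^ (1 / 3 : ℝ) := by positivity
  rw [← div_eq_inv_mul, le_div_iff₀ h6]
  linarith

/-- splitting the words at `n₁` -/
theorem split (d n n₁ D m : ℕ) (hn₁ : n₁ ≤ n) (a b : ℕ → ℂ) (ha : ∀ k, a k ≠ 0)
    (x y₀ : ℂ) (V : Submodule ℚ ℂ) (hV : FiniteDimensional ℚ V) (hVr : finrank ℚ V = d + 1)
    (hD : ∀ V' : Submodule ℚ ℂ, FiniteDimensional ℚ V' → finrank ℚ V' ≤ D →
      ∃ k ∈ Ico n₁ n, zz k ∉ V') (hm : 4 ^ m * (d + 1) ≤ D) (δ₂ : ℝ) (hδ₂ : 0 ≤ δ₂)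
    (hind : ∀ (y₁ : ℂ) (V' : Submodule ℚ ℂ), FiniteDimensional ℚ V' → finrank ℚ V' ≤ d →
      (cnt a b n₁ x y₁ V' : ℝ) ≤ δ₂ * 4 ^ n₁) :
    (cnt a b n x y₀ V : ℝ) ≤ Real.sqrt (1 / 2 ^ m + δ₂) * 4 ^ n := by
  classical
  set I := Ico n₁ n with hI
  set SA := (range n₁).powerset ×ˢ (range n₁).powerset with hSA
  set SB := I.powerset ×ˢ I.powerset with hSB
  have hIc : I.card = n - n₁ := by rw [hI, Nat.card_Ico]
  have hSAc : (SA.card : ℝ) = 4 ^ n₁ := by
    rw [hSA, card_product, card_powerset, card_range]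
    push_cast
    rw [← mul_pow]; norm_num
  have hSBc : (SB.card : ℝ) = 4 ^ I.card := by
    rw [hSB, card_product, card_powerset]
    push_cast
    rw [← mul_pow]; norm_num
  have hl : n₁ + (n - n₁) = n := by omega
  -- the composed maps
  have haff : ∀ v ∈ SB, ∃ β : ℂ, ∀ y, run zz a b v.1 v.2 n₁ (n - n₁) y =
      ((∏ k ∈ I, a k) * ∏ k ∈ v.1, zs zz v.2 k) * y + β := by
    intro v hv
    rw [hSB, mem_product, mem_powerset, mem_powerset] at hv
    obtain ⟨β, hβ⟩ := run_affine zz a b v.1 v.2 n₁ (n - n₁) (by rw [hl]; exact hv.1)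
    rw [hl] at hβ
    exact ⟨β, hβ⟩
  choose! β hβ using haff
  set c : ℂ := ∏ k ∈ I, a k with hc
  have hc0 : c ≠ 0 := prod_ne_zero_iff.2 fun k _ => ha k
  set α : Finset ℕ × Finset ℕ → ℂ := fun v => c * ∏ k ∈ v.1, zs zz v.2 k with hα
  have hα0 : ∀ v ∈ SB, α v ≠ 0 := fun v _ =>
    mul_ne_zero hc0 (prod_ne_zero_iff.2 fun k _ => zs_ne zz zz_ne v.2 k)
  have hV0 : V ≠ ⊥ := by
    rintro rfl
    rw [finrank_bot] at hVr
    omega
  have hmain := second_moment SA SB (fun u => run zz a b u.1 u.2 0 n₁ x) α β hα0 V hV y₀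
    (1 / 2 ^ m) δ₂ hδ₂ (fun v' _ => by
      rw [hSBc]
      exact direction zz zz_ne c hc0 (scal (α v') V) V hV hV0 I D hD m (by rw [hVr]; exact hm))
    (fun y₁ V' hV' hV'r => by
      rw [hSAc]
      exact hind y₁ V' hV' (by omega))
  have hle : cnt a b n x y₀ V ≤ ((SA ×ˢ SB).filter (fun w => α w.2 *
      (run zz a b w.1.1 w.1.2 0 n₁ x) + β w.2 - y₀ ∈ V)).card := by
    unfold cnt
    refine card_le_card_of_injOn (fun w => ((w.1 ∩ range n₁, w.2 ∩ range n₁),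
      (w.1 ∩ I, w.2 ∩ I))) ?_ ?_
    · intro w hw
      rw [mem_coe, mem_filter] at hw
      rw [mem_coe, mem_filter]
      have hv : (w.1 ∩ I, w.2 ∩ I) ∈ SB := by
        rw [hSB, mem_product, mem_powerset, mem_powerset]
        exact ⟨inter_subset_right, inter_subset_right⟩
      refine ⟨?_, ?_⟩
      · rw [mem_product]
        refine ⟨?_, hv⟩
        rw [hSA, mem_product, mem_powerset, mem_powerset]
        exact ⟨inter_subset_right, inter_subset_right⟩
      · have h1 := hβ _ hv (run zz a b (w.1 ∩ range n₁) (w.2 ∩ range n₁) 0 n₁ x)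
        have h2 : run zz a b w.1 w.2 0 n x = run zz a b (w.1 ∩ I) (w.2 ∩ I) n₁ (n - n₁)
            (run zz a b (w.1 ∩ range n₁) (w.2 ∩ range n₁) 0 n₁ x) := by
          conv_lhs => rw [← hl]
          rw [run_add, zero_add]
          have e1 : run zz a b w.1 w.2 0 n₁ x =
              run zz a b (w.1 ∩ range n₁) (w.2 ∩ range n₁) 0 n₁ x := by
            apply run_congr
            intro k _ hk
            simp only [mem_inter, mem_range]
            have : k < n₁ := by omega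
            tauto
          rw [e1]
          apply run_congr
          intro k hk1 hk2
          simp only [hI, mem_inter, mem_Ico]
          have : k < n := by omega
          tauto
        have h3 := hw.2
        rw [h2, h1] at h3
        exact h3
    · intro w hw w' hw' hww
      rw [mem_coe, mem_filter, mem_product, mem_powerset, mem_powerset] at hw hw'
      simp only [Prod.mk.injEq] at hww
      obtain ⟨⟨e1, e2⟩, e3, e4⟩ := hww
      have key : ∀ S S' : Finset ℕ, S ⊆ range n → S' ⊆ range n → S ∩ range n₁ = S' ∩ range n₁ →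
          S ∩ I = S' ∩ I → S = S' := by
        intro S S' hS hS' f1 f2
        ext k
        have g1 := Finset.ext_iff.1 f1 k
        have g2 := Finset.ext_iff.1 f2 k
        simp only [mem_inter, mem_range, hI, mem_Ico] at g1 g2
        constructor
        · intro hk
          have := mem_range.1 (hS hk)
          by_cases h : k < n₁
          · exact (g1.1 ⟨hk, h⟩).1
          · exact (g2.1 ⟨hk, by omega, this⟩).1
        · intro hk
          have := mem_range.1 (hS' hk)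
          by_cases h : k < n₁
          · exact (g1.2 ⟨hk, h⟩).1
          · exact (g2.2 ⟨hk, by omega, this⟩).1
      exact Prod.ext (key _ _ hw.1.1 hw'.1.1 e1 e3) (key _ _ hw.1.2 hw'.1.2 e2 e4)
  refine (Nat.cast_le.2 hle).trans (hmain.trans (le_of_eq ?_))
  rw [hSAc, hSBc, hIc, ← pow_add, hl]

theorem SS_succ (d : ℕ) (h : SS d) : SS (d + 1) := by
  obtain ⟨c, hc, n₀, hn₀⟩ := h
  obtain ⟨n₂, hn₂⟩ := Pool.Agent.E8helper75.ZP.outside
  obtain ⟨c₁, hc₁⟩ : ∃ c₁ : ℝ, c₁ = min c (1 / 3) := ⟨_, rfl⟩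
  have hc₁0 : 0 < c₁ := by rw [hc₁]; exact lt_min hc (by norm_num)
  have hc₁c : c₁ ≤ c := by rw [hc₁]; exact min_le_left _ _
  have hc₁3 : c₁ ≤ 1 / 3 := by rw [hc₁]; exact min_le_right _ _
  have hlim : Tendsto (fun n : ℕ => Real.log (n : ℝ)) atTop atTop :=
    Real.tendsto_log_atTop.comp tendsto_natCast_atTop_atTop
  have e1 : ∀ᶠ L : ℝ in atTop, 2 + 3 ^ c ≤ L ^ (c₁ / 2) :=
    (tendsto_rpow_atTop (by positivity)).eventually_ge_atTop _
  have e2 : ∀ᶠ L : ℝ in atTop, 800 * ((d : ℝ) + 1) ≤ L ^ (1 / 3 : ℝ) :=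
    (tendsto_rpow_atTop (by norm_num)).eventually_ge_atTop _
  obtain ⟨n₃, hn₃⟩ := eventually_atTop.1 (hlim.eventually (e1.and (e2.and
    (eventually_ge_atTop 1000))))
  refine ⟨c₁ / 4, by positivity, max (max n₂ n₃) (max n₀ ((n₀ + 1) ^ 2)), fun n hn a b ha x y₀ V hV
    hVr => ?_⟩
  have hnn₂ : n₂ ≤ n := le_trans (le_trans (le_max_left _ _) (le_max_left _ _)) hn
  have hnn₃ : n₃ ≤ n := le_trans (le_trans (le_max_right _ _) (le_max_left _ _)) hn
  have hnn₀ : n₀ ≤ n := le_trans (le_trans (le_max_left _ _) (le_max_right _ _)) hn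
  have hnn₀' : (n₀ + 1) ^ 2 ≤ n := le_trans (le_trans (le_max_right _ _) (le_max_right _ _)) hn
  obtain ⟨h1, h2, h3⟩ := hn₃ n hnn₃
  set L := Real.log (n : ℝ) with hL
  have hLpos : 0 < L := by linarith
  have hL1 : 1 ≤ L := by linarith
  rcases Nat.lt_or_ge (finrank ℚ V) (d + 1) with hlt | hge
  · refine (hn₀ n hnn₀ a b ha x y₀ V hV (by omega)).trans ?_
    refine mul_le_mul_of_nonneg_right (Real.rpow_le_rpow_of_exponent_le hL1 ?_) (by positivity)
    linarith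
  have hVr' : finrank ℚ V = d + 1 := le_antisymm hVr hge
  set n₁ := Nat.sqrt n with hn₁
  have hn₁2 : n₁ ^ 2 ≤ n := Nat.sqrt_le' n
  have hn₁n : n₁ ≤ n := Nat.sqrt_le_self n
  have hn₁0 : n₀ + 1 ≤ n₁ := by
    rw [hn₁, Nat.le_sqrt']
    exact hnn₀'
  have hn₁lt : n < (n₁ + 1) ^ 2 := Nat.lt_succ_sqrt' n
  -- the logarithm of `n₁`
  have hlog₁ : L / 3 ≤ Real.log n₁ := by
    have h5 : (n : ℝ) ≤ (2 * (n₁ : ℝ)) ^ 2 := by
      have h6 : (n : ℝ) ≤ ((n₁ : ℝ) + 1) ^ 2 := by exact_mod_cast hn₁lt.le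
      have h7 : (1 : ℝ) ≤ n₁ := by exact_mod_cast (by omega : 1 ≤ n₁)
      nlinarith
    have hn0 : (0 : ℝ) < n := by
      by_contra hcon
      have : (n : ℝ) = 0 := le_antisymm (not_lt.1 hcon) (Nat.cast_nonneg _)
      rw [hL, this, Real.log_zero] at h3
      linarith
    have hn₁R : (0 : ℝ) < n₁ := by exact_mod_cast (by omega : 0 < n₁)
    have h8 := Real.log_le_log hn0 h5
    rw [Real.log_pow, Real.log_mul two_ne_zero hn₁R.ne', ← hL] at h8
    have := Real.log_two_lt_d9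
    push_cast at h8
    linarith
  have hδ₂ : Real.log n₁ ^ (-c) ≤ 3 ^ c * L ^ (-c₁) := by
    calc Real.log n₁ ^ (-c) ≤ (L / 3) ^ (-c) :=
          Real.rpow_le_rpow_of_nonpos (by positivity) hlog₁ (by linarith)
      _ = 3 ^ c * L ^ (-c) := by
          rw [Real.div_rpow hLpos.le (by norm_num), Real.rpow_neg (by norm_num : (0 : ℝ) ≤ 3)]
          field_simp
      _ ≤ 3 ^ c * L ^ (-c₁) := by
          refine mul_le_mul_of_nonneg_left (Real.rpow_le_rpow_of_exponent_le hL1 ?_)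
            (by positivity)
          linarith
  -- the number of chosen indices
  have hL31 : 1 ≤ L ^ (1 / 3 : ℝ) := Real.one_le_rpow hL1 (by norm_num)
  set q : ℕ := ⌊L ^ (1 / 3 : ℝ)⌋₊ with hq
  have hq0 : q ≠ 0 := (Nat.floor_pos.2 hL31).ne'
  have hqle : (q : ℝ) ≤ L ^ (1 / 3 : ℝ) := Nat.floor_le (by positivity)
  have hqlt : L ^ (1 / 3 : ℝ) < (q : ℝ) + 1 := Nat.lt_floor_add_one _
  set m : ℕ := Nat.log 2 q with hm
  have hm1 : (2 : ℝ) ^ m ≤ L ^ (1 / 3 : ℝ) := by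
    have : 2 ^ m ≤ q := Nat.pow_log_le_self 2 hq0
    refine le_trans ?_ hqle
    exact_mod_cast this
  have hm2 : L ^ (1 / 3 : ℝ) ≤ 2 * (2 : ℝ) ^ m := by
    have : q < 2 ^ (m + 1) := Nat.lt_pow_succ_log_self (by norm_num) q
    have h5 : (q : ℝ) + 1 ≤ 2 ^ (m + 1) := by exact_mod_cast this
    rw [pow_succ] at h5
    linarith
  have hδ₁ : 1 / (2 : ℝ) ^ m ≤ 2 * L ^ (-c₁) := by
    have h5 : 1 / (2 : ℝ) ^ m ≤ 2 * L ^ (-(1 / 3 : ℝ)) := by
      rw [Real.rpow_neg hLpos.le, ← div_eq_mul_inv, div_le_div_iff₀ (by positivity) (by positivity)]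
      linarith
    refine h5.trans ?_
    refine mul_le_mul_of_nonneg_left (Real.rpow_le_rpow_of_exponent_le hL1 ?_) (by norm_num)
    linarith
  have hmD : 4 ^ m * (d + 1) ≤ ⌊L / 400⌋₊ := by
    apply Nat.le_floor
    push_cast
    have h4 : (4 : ℝ) ^ m = 2 ^ m * 2 ^ m := by rw [← mul_pow]; norm_num
    rw [h4]
    have h5 : L = L ^ (1 / 3 : ℝ) * L ^ (1 / 3 : ℝ) * L ^ (1 / 3 : ℝ) := by
      rw [← Real.rpow_add hLpos, ← Real.rpow_add hLpos]
      norm_num
    calc (2 : ℝ) ^ m * 2 ^ m * ((d : ℝ) + 1) ≤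
        L ^ (1 / 3 : ℝ) * L ^ (1 / 3 : ℝ) * (L ^ (1 / 3 : ℝ) / 800) := by
          gcongr
          linarith
      _ = L / 800 := by rw [← mul_div_assoc, ← h5]
      _ ≤ L / 400 := by linarith
  have hmain := split d n n₁ ⌊L / 400⌋₊ m hn₁n a b ha x y₀ V hV hVr'
    (fun V' hV' hV'r => by
      obtain ⟨k, hk1, hk2, hk3⟩ := hn₂ n hnn₂ n₁ hn₁2 V' hV' (by
        refine le_trans ?_ (Nat.floor_le (by positivity))
        exact_mod_cast hV'r)
      exact ⟨k, mem_Ico.2 ⟨hk1, hk2⟩, hk3⟩) hmD (Real.log n₁ ^ (-c))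
    (Real.rpow_nonneg (by linarith) _)
    (fun y₁ V' hV' hV'r => hn₀ n₁ (by omega) a b ha x y₁ V' hV' hV'r)
  refine hmain.trans ?_
  refine mul_le_mul_of_nonneg_right ?_ (by positivity)
  rw [Real.sqrt_le_left (by positivity)]
  calc 1 / (2 : ℝ) ^ m + Real.log n₁ ^ (-c) ≤ 2 * L ^ (-c₁) + 3 ^ c * L ^ (-c₁) :=
        add_le_add hδ₁ hδ₂
    _ = (2 + 3 ^ c) * L ^ (-c₁) := by ring
    _ ≤ L ^ (c₁ / 2) * L ^ (-c₁) := by gcongr
    _ = (L ^ (-(c₁ / 4))) ^ 2 := by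
        rw [← Real.rpow_natCast (L ^ (-(c₁ / 4))) 2, ← Real.rpow_mul hLpos.le,
          ← Real.rpow_add hLpos]
        congr 1
        push_cast
        ring

/-- **Random arithmetic expressions in the odd zeta values.** -/
theorem SS_all (d : ℕ) : SS d := by
  induction d with
  | zero => exact SS_zero
  | succ d ih => exact SS_succ d ih

end Pool.Agent.E8helper75.ZE
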